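import Pool.Agent.Helper17.DF.GraphD
import Pool.Agent.Helper17.DF.Goods
import Pool.Agent.Helper17.DF.Data.AFin

set_option autoImplicit false

namespace Pool.Agent.Helper17.Old.LongFacesFarApart
open Function

/-- Cubic graphs embedded in the sphere (rotation system `ρ`, Euler formula) in which any two
different faces of length at least 7 are at distance at least 4 (that is, no walk that crosses
three edges leads from one to the other): exactly three Hamilton cycles implies that the graph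
arises from `K₄` by repeatedly replacing a vertex by a triangle. -/
theorem result {V : Type} [Fintype V] [DecidableEq V] (G : SimpleGraph V)
    (ρ : Equiv.Perm G.Dart) (h1 : ∀ d, (ρ d).fst = d.fst) (h2 : ∀ d, ρ d ≠ d)
    (h3 : ∀ v : V, (G.neighborSet v).ncard = 3)
    (hE : (Fintype.card V : ℤ) - (G.edgeSet.ncard : ℤ) +
      (Nat.card (Quot fun x y : G.Dart => ρ x.symm = y) : ℤ) = 2)
    (hF : ∀ d d' : G.Dart, 7 ≤ minimalPeriod (fun x : G.Dart => ρ x.symm) d →
      7 ≤ minimalPeriod (fun x : G.Dart => ρ x.symm) d' →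
      (∃ i j k l : ℕ, (fun x : G.Dart => ρ x.symm)^[l] ((fun x : G.Dart => ρ x.symm)^[k]
        ((fun x : G.Dart => ρ x.symm)^[j] ((fun x : G.Dart => ρ x.symm)^[i] d).symm).symm).symm
          = d') → ∃ n : ℕ, (fun x : G.Dart => ρ x.symm)^[n] d = d')
    (hH : {s : Set (Sym2 V) | ∃ (u : V) (p : G.Walk u u),
      p.IsHamiltonianCycle ∧ s = {e : Sym2 V | e ∈ p.edges}}.ncard = 3) :
    ∃ (n : ℕ) (Γ : ∀ k : ℕ, SimpleGraph (Fin (4 + 2 * k))),
          Γ 0 = (⊤ : SimpleGraph (Fin (4 + 2 * 0))) ∧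
          (∀ (k : ℕ) (x : Fin (4 + 2 * k)), ((Γ k).neighborSet x).ncard = 3) ∧
          (∀ k : ℕ, k < n →
            ∃ (f : Fin (4 + 2 * (k + 1)) → Fin (4 + 2 * k)) (v : Fin (4 + 2 * k)),
              (f ⁻¹' ({v} : Set (Fin (4 + 2 * k)))).ncard = 3 ∧
              (∀ w : Fin (4 + 2 * k), w ≠ v →
                (f ⁻¹' ({w} : Set (Fin (4 + 2 * k)))).ncard = 1) ∧
              (∀ x y : Fin (4 + 2 * (k + 1)),
                (Γ (k + 1)).Adj x y → f x = f y ∨ (Γ k).Adj (f x) (f y)) ∧
              (∀ x y : Fin (4 + 2 * (k + 1)),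
                x ≠ y → f x = v → f y = v → (Γ (k + 1)).Adj x y) ∧
              (∀ a b : Fin (4 + 2 * k), (Γ k).Adj a b →
                ∃! e : Sym2 (Fin (4 + 2 * (k + 1))),
                  e ∈ (Γ (k + 1)).edgeSet ∧ Sym2.map f e = s(a, b))) ∧
          Nonempty (G ≃g Γ n) :=
  Pool.Agent.Helper17.CT.class_far G ρ h1 h2 h3 Pool.Agent.Helper17.CT.bra_good
    Pool.Agent.Helper17.CT.noA hE hF hH

end Pool.Agent.Helper17.Old.LongFacesFarApart
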