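import Pool.Agent.Helper17.DF.GraphD
import Pool.Agent.Helper17.DF.Goods
import Pool.Agent.Helper17.DF.Data.AFin

set_option autoImplicit false

namespace Pool.Agent.Helper17.Old.TwoLongFaces
open Function

/-- In a cyclically 4-edge-connected cubic graph embedded in the sphere, other than `K₄`, with
exactly three Hamilton cycles, every face of length at most 5 is adjacent to a face of length at
least 7, and a second face of length at least 7 is at distance at most 2 from it. -/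
theorem result {V : Type} [Fintype V] [DecidableEq V] (G : SimpleGraph V)
    (ρ : Equiv.Perm G.Dart) (h1 : ∀ d, (ρ d).fst = d.fst) (h2 : ∀ d, ρ d ≠ d)
    (h3 : ∀ v : V, (G.neighborSet v).ncard = 3)
    (hE : (Fintype.card V : ℤ) - (G.edgeSet.ncard : ℤ) +
      (Nat.card (Quot fun x y : G.Dart => ρ x.symm = y) : ℤ) = 2)
    (hC : ∀ X : Set V, {e : Sym2 V | e ∈ G.edgeSet ∧ (∃ x ∈ e, x ∈ X) ∧ ∃ y ∈ e, y ∉ X}.ncard ≤ 3 →
      X.Subsingleton ∨ Xᶜ.Subsingleton)
    (hV : 4 < Fintype.card V)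
    (hH : {s : Set (Sym2 V) | ∃ (u : V) (p : G.Walk u u),
      p.IsHamiltonianCycle ∧ s = {e : Sym2 V | e ∈ p.edges}}.ncard = 3)
    (d : G.Dart) (hd : minimalPeriod (fun x : G.Dart => ρ x.symm) d ≤ 5) :
    ∃ i j k : ℕ, 7 ≤ minimalPeriod (fun x : G.Dart => ρ x.symm)
        ((fun x : G.Dart => ρ x.symm)^[i] d).symm ∧
      7 ≤ minimalPeriod (fun x : G.Dart => ρ x.symm)
        ((fun x : G.Dart => ρ x.symm)^[k] ((fun x : G.Dart => ρ x.symm)^[j] d).symm).symm ∧
      ∀ n : ℕ, (fun x : G.Dart => ρ x.symm)^[n] ((fun x : G.Dart => ρ x.symm)^[i] d).symm ≠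
        ((fun x : G.Dart => ρ x.symm)^[k] ((fun x : G.Dart => ρ x.symm)^[j] d).symm).symm :=
  Pool.Agent.Helper17.CT.local_far G ρ h1 h2 h3 Pool.Agent.Helper17.CT.bra_good
    Pool.Agent.Helper17.CT.noA hE hC hV hH d hd

end Pool.Agent.Helper17.Old.TwoLongFaces
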